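import Pool.Agent.Y63.KR.Brown

/-!
# The alternating-sum form of Alperin's weight conjecture as continuity in the genus

Let `G` be a finite group, `p` a prime, and `X` the poset of nontrivial `p`-subgroups of `G`. For
`g ≥ 1` let `Π_g` be the fundamental group of the closed orientable surface of genus `g`, and let

  `χ_g = |G|⁻¹ ∑_φ χ(X^φ(Π_g))`  and  `χ̃_g = |G|⁻¹ ∑_φ (χ(X^φ(Π_g)) - 1)`,

where `φ` runs over the homomorphisms `Π_g → G`. So `Π_1 = ℤ²`, and `-χ̃_1` is the alternating sum
`∑_σ (-1)^|σ| k(G_σ)` of the numbers of irreducible characters of the stabilisers of the chains of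
nontrivial `p`-subgroups, up to conjugacy, the empty chain included. If `O_p(G) = 1` the sum of the
identities in question over all blocks of `G` with nontrivial defect groups is `-χ̃_1 = z_p(G)`, the
number of irreducible characters of defect zero.

We prove for every `G` that `χ_g` is an integer divisible by `p^(2g-2)`, that `-χ̃_g` is congruent to
`z_p(G)` modulo `p^(N+1)` if `g ≥ 2` and `g ≡ 1` modulo `p^N (p - 1)`, and hence that the identity
`-χ̃_1 = z_p(G)` holds if and only if `χ̃_g` tends to `χ̃_1` `p`-adically for `g → 1`.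

Idea of the proof: by the formula of Frobenius and Mednykh, `-χ̃_g` is the alternating sum of
`∑_χ (|G_σ| / χ(1))^(2g-2)`. The characters of defect zero are the `χ` for which `|G_σ| / χ(1)` is
prime to `p`; there are none if `σ` is not empty, which also follows from counting: if `A` is an
abelian normal subgroup of `H` then `|A|^(2g-1)` divides `|Hom(Π_g, H)|`.
-/

set_option autoImplicit false

namespace Pool.Agent.Results.MP_6a3f1a_al.GenusContinuity

open Pool.Agent.Y63.KR Pool.Agent.Y63.AWC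

/-- Let `G` be a finite group and `p` a prime.

(1) For `g ≥ 1`, `-χ̃_g` is the alternating sum over the conjugacy classes of chains `σ` of
nontrivial `p`-subgroups (the empty chain included) of `|Hom(Π_g, G_σ)| / |G_σ|`; for `g = 1` this is
the alternating sum of the numbers `k(G_σ)`.

(2) For `g ≥ 1`, `χ_g` is an integer divisible by `p^(2g-2)`.

(3) If `g ≥ 2` and `p^N (p - 1)` divides `g - 1` then `-χ̃_g ≡ z_p(G)` modulo `p^(N+1)`.

(4) `∑_σ (-1)^|σ| k(G_σ) = z_p(G)` if and only if `χ̃_g` tends to `χ̃_1` `p`-adically for `g → 1`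
(that is, for `g ≥ 2` and `g - 1` divisible by higher and higher `p^M (p - 1)`). -/
theorem result (p : ℕ) [Fact p.Prime] (G : Type) [Group G] [Finite G] :
    ((∀ g : ℕ, 1 ≤ g → -surfaceChi p g G =
        ((alternatingSum p G (fun H => (surfaceCount g H : ℤ)) : ℤ) : ℚ)) ∧
      alternatingSum p G (fun H => (surfaceCount 1 H : ℤ)) =
        alternatingSum p G (fun H => (Nat.card (ConjClasses H) : ℤ))) ∧
    (∀ g : ℕ, 1 ≤ g → ∃ c : ℤ, surfaceEuler p g G = (p : ℚ) ^ (2 * g - 2) * c) ∧
    (∀ g N : ℕ, 2 ≤ g → p ^ N * (p - 1) ∣ g - 1 →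
      ∃ c : ℤ, -surfaceChi p g G = (numDefectZero p G : ℚ) + (p : ℚ) ^ (N + 1) * c) ∧
    (alternatingSum p G (fun H => (Nat.card (ConjClasses H) : ℤ)) = (numDefectZero p G : ℤ) ↔
      ∀ N : ℕ, ∃ M : ℕ, ∀ g : ℕ, 2 ≤ g → p ^ M * (p - 1) ∣ g - 1 →
        ∃ c : ℤ, surfaceChi p g G - surfaceChi p 1 G = (p : ℚ) ^ N * c) := by
  refine ⟨⟨?_, sum_surfaceCount_one⟩, ?_, ?_, continuity_iff⟩
  · intro g hg
    obtain ⟨n, rfl⟩ : ∃ n, g = n + 1 := ⟨g - 1, by omega⟩
    rw [surfaceChi_eq, neg_neg]
  · intro g hg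
    obtain ⟨n, rfl⟩ : ∃ n, g = n + 1 := ⟨g - 1, by omega⟩
    exact surfaceEuler_dvd n
  · intro g N hg hd
    obtain ⟨n, rfl⟩ : ∃ n, g = n + 1 := ⟨g - 1, by omega⟩
    obtain ⟨c, hc⟩ := alternatingSum_mod' (p := p) (G := G) (N := N) (n := n) (by omega)
      (by simpa using hd)
    refine ⟨c, ?_⟩
    rw [surfaceChi_eq, neg_neg]
    have h2 := congrArg (Int.cast : ℤ → ℚ) hc
    push_cast at h2
    linarith

end Pool.Agent.Results.MP_6a3f1a_al.GenusContinuity
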